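import Pool.Agent.Lib.MP_e7db20_al.Embed

namespace Pool.Agent.Results.MP_e7db20_al.OneEndedEnvelope

open Pool.Agent.Lib.MP_e7db20_al

/-- A nondiscrete primitive subdegree-finite group with a regular subgroup is a retract, with
compact kernel, of an open subgroup of a one-ended simple primitive group. -/
theorem result (B : Type) [Group B] [TopologicalSpace B] (hB : IsTDLC B)
    (hd : ¬ DiscreteTopology B) (U A : Subgroup B) (h1 : IsCoatom U) (h2 : IsCompact (U : Set B))
    (h3 : IsOpen (U : Set B)) (h4 : U.normalCore = ⊥) (h5 : A.IsComplement' U) :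
    ∃ (G : Type) (_ : Group G) (_ : TopologicalSpace G), InP G ∧ InS G ∧ OneEnded G ∧
      ∃ (O : Subgroup G) (φ : O →* B) (ψ : B →* O), IsOpen (O : Set G) ∧ IsProperMap φ ∧
        Continuous ψ ∧ ∀ b, φ (ψ b) = b := by
  have := hB.1
  have : DiscreteTopology (B ⧸ U) := QuotientGroup.discreteTopology h3
  have e : MulAction.stabilizer B ((1 : B) : B ⧸ U) = U := MulAction.stabilizer_quotient U
  refine embed_of_regular (o := ((1 : B) : B ⧸ U)) hB hd (e.symm ▸ h1) (e.symm ▸ h2) (e.symm ▸ h4) A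
    (fun g => ?_) fun a a' h => ?_
  · obtain ⟨⟨a, u⟩, rfl⟩ := h5.2 g
    exact ⟨a, by rw [mul_smul, (e.ge u.2 : (u : B) • ((1 : B) : B ⧸ U) = _)]⟩
  · have h6 : (a' : B)⁻¹ * a ∈ U := e.le (by
      rw [MulAction.mem_stabilizer_iff, mul_smul, h, inv_smul_smul])
    have h7 := h5.disjoint.le_bot (Subgroup.mem_inf.2 ⟨A.mul_mem (A.inv_mem a'.2) a.2, h6⟩)
    exact Subtype.ext (inv_mul_eq_one.1 h7).symm

end Pool.Agent.Results.MP_e7db20_al.OneEndedEnvelope
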