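import Pool.Agent.Lib.MP_e7db20_al.Building

/-! A simple, one-ended, primitive subdegree-finite t.d.l.c. group that is not well-founded. -/

namespace Pool.Agent.Results.MP_e7db20_al.PrimSimpleOneEnded

open Pool.Agent.Lib.MP_e7db20_al

theorem result : ∃ (G : Type) (_ : Group G) (_ : TopologicalSpace G),
    InP G ∧ InS G ∧ OneEnded G ∧ ¬ SWellFounded G :=
  exists_simple_oneEnded

end Pool.Agent.Results.MP_e7db20_al.PrimSimpleOneEnded
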